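import Pool.Agent.Helper54.SP.StmtsP

set_option autoImplicit false

namespace Pool.Agent.Helper54.SP

theorem gt2_cox (U r e : ℝ) (hU : U ≠ 0) :
    cox U (U * (1 + r)) e 0 = 1 - e ∧ cox U (U * (1 + r)) e 1 = 1 + e ∧
    cox U (U * (1 + r)) e 2 = 1 + r + 30 * e ∧ cox U (U * (1 + r)) e 3 = 1 + r - 30 * e ∧
    cox U (U * (1 + r)) e 4 = 1 - e / 2 ∧ cox U (U * (1 + r)) e 5 = 1 + e / 2 ∧
    cox U (U * (1 + r)) e 6 = 1 + r + 31 * e ∧ cox U (U * (1 + r)) e 7 = 1 + r - 31 * e := by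
  have h : U * (1 + r) / U = 1 + r := by field_simp
  refine ⟨?_, ?_, ?_, ?_, ?_, ?_, ?_, ?_⟩ <;> norm_num [cox, h]

theorem gt2_coy (k : Bool) (U U' A A' e : ℝ) :
    coy k U U' A A' e 0 = U + 10 * e ∧ coy k U U' A A' e 1 = U - 10 * e ∧
    coy k U U' A A' e 2 = U' + (if k then 15 else 45) * e ∧
    coy k U U' A A' e 3 = U' - (if k then 15 else 45) * e ∧
    coy k U U' A A' e 4 = A + 10 * e ∧ coy k U U' A A' e 5 = A - 10 * e ∧
    coy k U U' A A' e 6 = A' + 124 * e ∧ coy k U U' A A' e 7 = A' - 124 * e := by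
  refine ⟨?_, ?_, ?_, ?_, ?_, ?_, ?_, ?_⟩ <;> cases k <;> norm_num [coy, mul8] <;> ring

theorem st_GT2 : ST_GT2 := by
  intro k U U' A A' e b hG hb p q r hpq hqr hr8 hor
  obtain ⟨U0, U1, U2, A0, A1, A2, heq, gap, e0, e1⟩ := hG
  have hcen : 2 - cen k = 1 ∨ 2 - cen k = 2 := by
    cases k
    · right; norm_num [cen]
    · left; norm_num [cen]
  have hUpos : 0 < U := by rcases hcen with h | h <;> rw [h] at U0 <;> linarith
  obtain ⟨ρ, hρ⟩ : ∃ ρ, ρ = U' / U - 1 := ⟨_, rfl⟩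
  have hU' : U' = U * (1 + ρ) := by rw [hρ]; field_simp; ring
  have hA' : A' = A * (1 + ρ) := by
    rw [hρ]
    field_simp
    linarith
  subst hU' hA'
  obtain ⟨x0, x1, x2, x3, x4, x5, x6, x7⟩ := gt2_cox U ρ e hUpos.ne'
  obtain ⟨y0, y1, y2, y3, y4, y5, y6, y7⟩ := gt2_coy k U (U * (1 + ρ)) A (A * (1 + ρ)) e
  have hρ0 : 0 < ρ := by
    by_contra h
    push Not at h
    nlinarith
  have hw0 : 0 < U * ρ := mul_pos hUpos hρ0
  have hw1 : U * ρ < 1 / 100 := by nlinarith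
  have F4a : (2 - cen k) * ρ < U * ρ := mul_lt_mul_of_pos_right U0 hρ0
  have F4b : U * ρ < (2 - cen k + 1 / 100) * ρ := mul_lt_mul_of_pos_right (by linarith) hρ0
  have F4c : (2 - cen k) * ρ < A * ρ := mul_lt_mul_of_pos_right A0 hρ0
  have F4d : A * ρ < (2 - cen k + 1 / 100) * ρ := mul_lt_mul_of_pos_right (by linarith) hρ0
  have gap' : 1000 * (U * ρ) < |A - U| := by
    have : U * (1 + ρ) - U = U * ρ := by ring
    rw [this] at gap
    exact gap
  have e1' : 1000000 * e ≤ (U * ρ) * |A - U| := by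
    have : U * (1 + ρ) - U = U * ρ := by ring
    rw [this] at e1
    exact e1
  have hΔ : |A - U| < 1 / 100 := by rw [abs_lt]; constructor <;> linarith
  have F1 : 100000000 * e ≤ U * ρ := by nlinarith
  have F2 : 100000000 * e ≤ |A - U| := by nlinarith [abs_nonneg (A - U)]
  have G0 : 0 < e * e := mul_pos e0 e0
  have G1 := mul_le_mul_of_nonneg_left F1 e0.le
  have G2 := mul_le_mul_of_nonneg_left F2 e0.le
  have G3 := mul_lt_mul_of_pos_left gap' e0
  have G4 := mul_lt_mul_of_pos_left F4a e0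
  have G5 := mul_lt_mul_of_pos_left F4b e0
  have G6 := mul_lt_mul_of_pos_left F4c e0
  have G7 := mul_lt_mul_of_pos_left F4d e0
  have G8 := mul_pos e0 hρ0
  have G9 := mul_pos e0 hw0
  have hkk : (k = true ∧ 2 - cen k = 1) ∨ (k = false ∧ 2 - cen k = 2) := by
    cases k
    · right; exact ⟨rfl, by norm_num [cen]⟩
    · left; exact ⟨rfl, by norm_num [cen]⟩
  have hbb : (b = true ∧ |A - U| = A - U) ∨ (b = false ∧ |A - U| = U - A) := by
    rcases lt_trichotomy U A with h | h | h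
    · left; exact ⟨hb.2 h, abs_of_pos (by linarith)⟩
    · rw [h, sub_self, abs_zero] at gap'
      rw [h] at hw0
      linarith
    · right
      refine ⟨?_, by rw [abs_of_neg (by linarith)]; ring⟩
      cases b
      · rfl
      · exact absurd (hb.1 rfl) (by linarith)
  clear hb heq U1 A1 gap e1 hρ hcen
  rcases hkk with ⟨hk, hc⟩ | ⟨hk, hc⟩ <;> rcases hbb with ⟨hb, hd⟩ | ⟨hb, hd⟩ <;>
    rw [hc] at G4 G5 G6 G7 <;> rw [hd] at G2 G3 <;> subst hk <;> subst hb <;>
    interval_cases r <;> interval_cases q <;> interval_cases p <;>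
    first
    | (exfalso; revert hor; decide)
    | (clear hor hpq hqr hr8
       simp only [x0, x1, x2, x3, x4, x5, x6, x7, y0, y1, y2, y3, y4, y5, y6, y7, tb, sb]
       norm_num
       linarith only [e0, G0, G1, G2, G3, G4, G5, G6, G7, G8, G9])

end Pool.Agent.Helper54.SP
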